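import Pool.Agent.E8helper53.LP.Fin

/-!
# The Tate conjecture for powers of hyperplane sections with a nodal place

Let `W` be a Weil cohomology theory on a class of smooth projective varieties over a separable closure
of a finitely generated field `k₀` (étale cohomology with coefficients in `ℚ_ℓ`, any characteristic
different from `ℓ`), and `Γ` the Galois group of `k₀`, with the cyclotomic character `χ`. Let `X` be
any smooth projective variety, `i : Y ⟶ X` a smooth hyperplane section, and `Z` any variety, such that
at some place `X` and `Z` have good reduction and the reduction of `Y` has one ordinary double point
as its only singularity, and such that the vanishing cohomology `V = ker (i_* : H(Y) → H(X))` is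
irreducible under all open subgroups of `Γ`. The main example: `k₀ = k₁(t)`, `X` and `Z` are defined
over the finitely generated field `k₁`, and `Y` is the generic member of a Lefschetz pencil of
hyperplane sections of `X` (then `V` is strongly irreducible by the theorem of Kazhdan and Margulis
and Deligne's Weil I and II, if it is not zero, and in odd dimension always). But `k₀` may also be a
number field.

No assumption is made on the cohomology of `X`: it may contain non-algebraic classes, in all degrees,
and so does the cohomology of `Y` then (`H(Y) = i^* H(X) ⊕ V`).

The theorem (`a = n + 1` copies of `Y`; if `dim Y` is even, `a < dim V` is assumed):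

1. every Tate class on `Y^a × Z` is in the algebra generated by the classes of the diagonals of
   pairs of factors `Y` and the restrictions to `Y^a × Z` of the Tate classes on `X^a × Z`;
2. the Tate conjecture, for all codimensions, holds for `Y^a × Z` if and only if the restrictions to
   `Y^a × Z` of all Tate classes on `X^a × Z` are algebraic;
3. the Tate conjecture for `X^a × Z` implies the Tate conjecture for `Y^a × Z`.

As `Z` is arbitrary, the theorem can be iterated, also for hyperplane sections of different varieties
with different nodal places, and for complete intersections. It gives new cases of the conjecture
whenever it is known for `X^a × Z`, for example for `X` and `Z` products of elliptic curves over fields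
of characteristic zero, where the middle cohomology of the odd-dimensional generic hyperplane sections
`Y` is not a sum of motives of abelian varieties. For `X` a projective space see the starting results
on nodal families (`MP_0273e8_ag` etc.), where all the non-vanishing cohomology is algebraic.

The proof: hard and weak Lefschetz give an equivariant graded section `H(Y) → H(X)` of the restriction
on the non-vanishing part; for every set `F` of factors, the contraction with vanishing classes at the
factors in `F` and this section at the other factors give an equivariant multilinear map
`V^F → H(X^a × Z)`. The operators `t ↦ (δ, t) δ'` for the conjugates of the vanishing cycle generate the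
Lie algebra of the form on `V`, so by the first fundamental theorem the map is a combination
of products of the form on pairs of variables, whose coefficients turn out to be Tate classes on
`X^a × Z`. The non-vanishing part of the class of the diagonal is the restriction of a Tate class of
`X × X`, and this shows 1. No semisimplicity, no standard conjecture and no equality of numerical and
homological equivalence is used.
-/

universe u v w

namespace Pool.Agent.Results.MP_0fca13_ag.HyperplaneSectionsH53

open Pool.Agent.H914 Pool.Agent.H914.VarClass Pool.Agent.H914.VarClass.Obj
  Pool.Agent.H281R3.HT Pool.Agent.TH125.Gal Pool.Agent.E8helper53.LP

/-- **The Tate conjecture for the powers of hyperplane sections of arbitrary varieties.** Here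
`A = X ^ (n + 1) × Z` and `B = Y ^ (n + 1) × Z`, `f : B ⟶ A` is the inclusion, and `D` is the set
of the classes of the diagonals. -/
theorem result {k : Type u} [Field k] {𝒱 : VarClass k} {ops : CycleOps 𝒱}
    (W : WeilCohomology.{u, v} ops) {Γ : Type w} [Group Γ] (χ : Γ →* W.Kˣ) (X Y Z : GVar W Γ)
    (i : Y.X ⟶ X.X) (n : ℕ) (h : NodalSection χ X Y Z i (n + 1)) (A B : GVar W Γ)
    (f : B.X ⟶ A.X) (D : Set (W.H B.X)) (hAB : IsPowerPair X Y Z i n A B f D) :
    TateGenerated χ A B f D ∧ (TateConjecture χ B ↔ RestrictionsAlgebraic χ A B f) ∧
      (TateConjecture χ A → TateConjecture χ B) :=
  ⟨fun _ _ hc => tate_mem h hAB hc, tate_iff h hAB, tate_of h hAB⟩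

end Pool.Agent.Results.MP_0fca13_ag.HyperplaneSectionsH53
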